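import Mathlib

/-!
# A transitive torsion-free abelian group whose square is not weakly transitive

We construct a subgroup `G` of `ℚ[X]` with endomorphism ring `ℤ[X]` in which two elements with
the same characteristic differ by a sign.  Hence `G` is transitive, Krylov transitive and
weakly transitive.  The elements `(5, X)` and `(5, 2X)` of `G ⊕ G` are mapped to each other by
endomorphisms but by no automorphism.
-/

open Polynomial

namespace Pool.Agent.Results.MP_1abb56_al.SquareNotWeaklyTrans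

/-- The `p`-height of `x`: the supremum of all `n` with `x ∈ p ^ n G`. -/
noncomputable def height {G : Type*} [AddCommGroup G] (p : ℕ) (x : G) : ℕ∞ :=
  ⨆ n : {n : ℕ // ∃ y : G, (p ^ n) • y = x}, ((n : ℕ) : ℕ∞)

/-- The characteristic of `x`: the family of its `p`-heights, `p` prime. -/
noncomputable def characteristic {G : Type*} [AddCommGroup G] (x : G) : Nat.Primes → ℕ∞ :=
  fun p => height (p : ℕ) x

/-- Krylov transitive groups. -/
def KrylovTransitive (G : Type*) [AddCommGroup G] : Prop :=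
  ∀ x y : G, characteristic x = characteristic y → ∃ φ : G →+ G, φ x = y

/-- Transitive groups. -/
def Transitive (G : Type*) [AddCommGroup G] : Prop :=
  ∀ x y : G, characteristic x = characteristic y → ∃ η : G ≃+ G, η x = y

/-- Weakly transitive groups. -/
def WeaklyTransitive (G : Type*) [AddCommGroup G] : Prop :=
  ∀ x y : G, (∃ φ : G →+ G, φ x = y) → (∃ ψ : G →+ G, ψ y = x) → ∃ η : G ≃+ G, η x = y

/-- Torsion-free abelian groups. -/
def TorsionFree (G : Type*) [AddCommGroup G] : Prop :=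
  ∀ (n : ℤ) (x : G), n ≠ 0 → n • x = 0 → x = 0

theorem le_height_iff {G : Type*} [AddCommGroup G] (p : ℕ) (x : G) (n : ℕ) :
    (n : ℕ∞) ≤ height p x ↔ ∃ y : G, (p ^ n) • y = x := by
  constructor
  · intro h
    by_contra hcon
    have hlt : ∀ m : {m : ℕ // ∃ y : G, (p ^ m) • y = x}, (m : ℕ) < n := by
      rintro ⟨m, y, hy⟩
      by_contra hm
      have hm' : n ≤ m := not_lt.mp hm
      apply hcon
      refine ⟨(p ^ (m - n)) • y, ?_⟩
      rw [← mul_smul, ← pow_add, Nat.add_sub_cancel' hm', hy]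
    have hn : 0 < n := by
      have := hlt ⟨0, x, by simp⟩
      exact this
    have h2 : height p x ≤ ((n - 1 : ℕ) : ℕ∞) := by
      apply iSup_le
      intro m
      have := hlt m
      exact_mod_cast (by omega : (m : ℕ) ≤ n - 1)
    have h3 : (n : ℕ∞) ≤ ((n - 1 : ℕ) : ℕ∞) := h.trans h2
    have h4 : n ≤ n - 1 := by exact_mod_cast h3
    omega
  · rintro ⟨y, hy⟩
    exact le_iSup (fun m : {m : ℕ // ∃ y : G, (p ^ m) • y = x} => ((m : ℕ) : ℕ∞)) ⟨n, y, hy⟩

theorem characteristic_eq_iff {G : Type*} [AddCommGroup G] (x y : G) :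
    characteristic x = characteristic y ↔
      ∀ p : ℕ, p.Prime → ∀ n : ℕ, (∃ z : G, (p ^ n) • z = x) ↔ ∃ z : G, (p ^ n) • z = y := by
  constructor
  · intro h p hp n
    have := congrFun h ⟨p, hp⟩
    simp only [characteristic] at this
    rw [← le_height_iff, ← le_height_iff, this]
  · intro h
    funext p
    simp only [characteristic]
    apply ENat.eq_of_forall_natCast_le_iff
    intro n
    rw [le_height_iff, le_height_iff]
    exact h p p.2 n

theorem Transitive.krylov {G : Type*} [AddCommGroup G] (h : Transitive G) :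
    KrylovTransitive G := fun x y hxy => by
  obtain ⟨η, hη⟩ := h x y hxy
  exact ⟨η.toAddMonoidHom, hη⟩

theorem Transitive.weakly {G : Type*} [AddCommGroup G] (h : Transitive G) :
    WeaklyTransitive G := by
  rintro x y ⟨φ, hφ⟩ ⟨ψ, hψ⟩
  apply h
  rw [characteristic_eq_iff]
  intro p _ n
  constructor
  · rintro ⟨z, hz⟩
    exact ⟨φ z, by rw [← map_nsmul, hz, hφ]⟩
  · rintro ⟨z, hz⟩
    exact ⟨ψ z, by rw [← map_nsmul, hz, hψ]⟩

/-! ### Assigning polynomials to primes -/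

theorem exists_assignment : ∃ ξ : ℕ → ℤ[X], ∀ (f : ℤ[X]) (B : ℕ), ∃ p : ℕ,
    p.Prime ∧ B < p ∧ ξ p = f := by
  have : Countable ℤ[X] := by
    rw [← Cardinal.mk_le_aleph0_iff]
    exact (Polynomial.cardinalMk_le_max).trans (by simp)
  obtain ⟨e, he⟩ := exists_surjective_nat ℤ[X]
  refine ⟨fun p => e (Nat.unpair (Nat.count Nat.Prime p)).1, fun f B => ?_⟩
  obtain ⟨a, ha⟩ := he f
  refine ⟨Nat.nth Nat.Prime (Nat.pair a (B + 1)), ?_, ?_, ?_⟩
  · exact Nat.prime_nth_prime _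
  · have h1 : B + 1 ≤ Nat.pair a (B + 1) := Nat.right_le_pair a (B + 1)
    have h2 : Nat.pair a (B + 1) ≤ Nat.nth Nat.Prime (Nat.pair a (B + 1)) :=
      (Nat.nth_strictMono Nat.infinite_setOfPred_prime).le_apply
    omega
  · simp only
    rw [Nat.count_nth_of_infinite Nat.infinite_setOfPred_prime, Nat.unpair_pair, ha]

/-- The chosen assignment of polynomials to primes. -/
noncomputable def ξ : ℕ → ℤ[X] := exists_assignment.choose

theorem ξ_spec (f : ℤ[X]) (B : ℕ) : ∃ p : ℕ, p.Prime ∧ B < p ∧ ξ p = f :=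
  exists_assignment.choose_spec f B

/-- The embedding of `ℤ[X]` in `ℚ[X]`. -/
noncomputable def ι : ℤ[X] →+* ℚ[X] := Polynomial.mapRingHom (Int.castRingHom ℚ)

theorem ι_injective : Function.Injective ι := by
  apply Polynomial.map_injective
  exact Int.cast_injective

/-- The local condition at the prime `p`: `g ∈ ℤ_(p)[X] + p⁻¹ ξ_p ℤ_(p)[X]`. -/
def Loc (p : ℕ) (g : ℚ[X]) : Prop :=
  ∃ s : ℤ, ¬ (p : ℤ) ∣ s ∧ ∃ a b : ℤ[X], (s : ℚ[X]) * (p : ℚ[X]) * g = ι (p * a + ξ p * b)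

theorem Loc.add {p : ℕ} (hp : p.Prime) {g h : ℚ[X]} (hg : Loc p g) (hh : Loc p h) :
    Loc p (g + h) := by
  obtain ⟨s, hs, a, b, e⟩ := hg
  obtain ⟨s', hs', a', b', e'⟩ := hh
  refine ⟨s * s', fun hd => ?_, s' * a + s * a', s' * b + s * b', ?_⟩
  · rcases (Nat.prime_iff_prime_int.mp hp).dvd_or_dvd hd with h1 | h1
    · exact hs h1
    · exact hs' h1
  · simp only [map_add, map_mul, map_natCast, map_intCast, Int.cast_mul] at e e' ⊢
    linear_combination (s' : ℚ[X]) * e + (s : ℚ[X]) * e'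

theorem Loc.mul {p : ℕ} {g : ℚ[X]} (hg : Loc p g) (f : ℤ[X]) : Loc p (ι f * g) := by
  obtain ⟨s, hs, a, b, e⟩ := hg
  refine ⟨s, hs, f * a, f * b, ?_⟩
  simp only [map_add, map_mul, map_natCast] at e ⊢
  linear_combination ι f * e

theorem Loc.of_mul {p : ℕ} (hp : p.Prime) {g : ℚ[X]} (m : ℤ) (hm : ¬ (p : ℤ) ∣ m)
    (hg : Loc p ((m : ℚ[X]) * g)) : Loc p g := by
  obtain ⟨s, hs, a, b, e⟩ := hg
  refine ⟨s * m, fun hd => ?_, a, b, ?_⟩
  · rcases (Nat.prime_iff_prime_int.mp hp).dvd_or_dvd hd with h1 | h1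
    · exact hs h1
    · exact hm h1
  · rw [← e]; push_cast; ring

theorem loc_ι {p : ℕ} (hp : p.Prime) (f : ℤ[X]) : Loc p (ι f) :=
  ⟨1, fun h => hp.one_lt.ne' (by exact_mod_cast Int.eq_one_of_dvd_one (by positivity) h),
    f, 0, by simp [ι]⟩

/-- The group `G`. -/
def G : AddSubgroup ℚ[X] where
  carrier := {g | ∀ p : ℕ, p.Prime → Loc p g}
  add_mem' := fun ha hb p hp => (ha p hp).add hp (hb p hp)
  zero_mem' := fun p hp => by
    have := loc_ι hp 0
    rwa [map_zero] at this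
  neg_mem' := fun {x} hx p hp => by
    have := (hx p hp).mul (-1)
    rwa [map_neg, map_one, neg_one_mul] at this

theorem mem_G {g : ℚ[X]} : g ∈ G ↔ ∀ p : ℕ, p.Prime → Loc p g := Iff.rfl

theorem ι_mem (f : ℤ[X]) : ι f ∈ G := fun _ hp => loc_ι hp f

theorem ι_mul_mem (f : ℤ[X]) {g : ℚ[X]} (hg : g ∈ G) : ι f * g ∈ G := fun p hp => (hg p hp).mul f

theorem exists_int_mul (g : ℚ[X]) : ∃ n : ℤ, n ≠ 0 ∧ ∃ f : ℤ[X], (n : ℚ[X]) * g = ι f := by
  induction g using Polynomial.induction_on' with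
  | add g h hg hh =>
    obtain ⟨n, hn, f, e⟩ := hg
    obtain ⟨n', hn', f', e'⟩ := hh
    refine ⟨n * n', mul_ne_zero hn hn', n' * f + n * f', ?_⟩
    simp only [map_add, map_mul, map_intCast, Int.cast_mul]
    linear_combination (n' : ℚ[X]) * e + (n : ℚ[X]) * e'
  | monomial k q =>
    refine ⟨q.den, by exact_mod_cast q.den_ne_zero, monomial k q.num, ?_⟩
    have h1 : (q.den : ℚ) * q = q.num := by
      rw [mul_comm]; exact Rat.mul_den_eq_num q
    have h2 : (((q.den : ℤ)) : ℚ[X]) = C (q.den : ℚ) := by simp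
    rw [h2, C_mul_monomial, h1]
    simp [ι]

theorem degree_ι (f : ℤ[X]) : (ι f).natDegree = f.natDegree :=
  Polynomial.natDegree_map_eq_of_injective Int.cast_injective f

theorem not_dvd_of_lt {p : ℕ} {M : ℤ} (hM : M ≠ 0) (h : M.natAbs < p) : ¬ (p : ℤ) ∣ M := by
  intro hd
  have := Nat.le_of_dvd (Int.natAbs_pos.mpr hM) (Int.natCast_dvd.mp hd)
  omega

/-- If divisibility by each prime passes from `x` to `y`, then `x` divides `y` in `ℚ[X]`. -/
theorem dvd_of_heights {x y : ℚ[X]} (hx : x ∈ G) (hx0 : x ≠ 0)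
    (h : ∀ p : ℕ, p.Prime → (∃ x' ∈ G, (p : ℚ[X]) * x' = x) → ∃ y' ∈ G, (p : ℚ[X]) * y' = y) :
    x ∣ y := by
  obtain ⟨n, hn, X0, eX⟩ := exists_int_mul x
  obtain ⟨n', hn', Y, eY⟩ := exists_int_mul y
  have hnQ : (n : ℚ[X]) ≠ 0 := by exact_mod_cast hn
  have hnQ' : (n' : ℚ[X]) ≠ 0 := by exact_mod_cast hn'
  have hX0 : X0 ≠ 0 := by
    rintro rfl
    rw [map_zero] at eX
    exact mul_ne_zero hnQ hx0 eX
  have hιX0 : ι X0 ≠ 0 := by
    rw [← eX]; exact mul_ne_zero hnQ hx0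
  have hqr : ι X0 * (ι Y / ι X0) + ι Y % ι X0 = ι Y := EuclideanDomain.div_add_mod _ _
  have hdeg : (ι Y % ι X0).degree < (ι X0).degree := EuclideanDomain.mod_lt _ hιX0
  obtain ⟨N, hN, R, eR⟩ := exists_int_mul (ι Y % ι X0)
  obtain ⟨N2, hN2, Q, eQ⟩ := exists_int_mul (ι Y / ι X0)
  have hNQ : (N : ℚ[X]) ≠ 0 := by exact_mod_cast hN
  by_contra hnd
  have hr0 : ι Y % ι X0 ≠ 0 := by
    intro h0
    apply hnd
    have h1 : ι X0 ∣ ι Y := (EuclideanDomain.mod_eq_zero).1 h0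
    rw [← eX, ← eY] at h1
    have hu : IsUnit (n' : ℚ[X]) := by
      have : (n' : ℚ[X]) = C (n' : ℚ) := by simp
      rw [this, isUnit_C]
      exact isUnit_iff_ne_zero.mpr (by exact_mod_cast hn')
    exact (hu.dvd_mul_left).1 ((dvd_mul_left x (n : ℚ[X])).trans h1)
  have hR0 : R ≠ 0 := by
    rintro rfl
    rw [map_zero] at eR
    exact mul_ne_zero hNQ hr0 eR
  have hRdeg : R.natDegree < X0.natDegree := by
    rw [← degree_ι R, ← degree_ι X0, ← eR]
    have h1 : ((N : ℚ[X]) * (ι Y % ι X0)).natDegree = (ι Y % ι X0).natDegree := by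
      have : (N : ℚ[X]) = C (N : ℚ) := by simp
      rw [this, natDegree_C_mul (by exact_mod_cast hN)]
    rw [h1]
    exact natDegree_lt_natDegree hr0 hdeg
  have hM : n * n' * N * N2 * X0.leadingCoeff * R.leadingCoeff ≠ 0 := by
    have := leadingCoeff_ne_zero.mpr hX0
    have := leadingCoeff_ne_zero.mpr hR0
    positivity
  obtain ⟨p, hp, hpB, hξ⟩ := ξ_spec X0 (n * n' * N * N2 * X0.leadingCoeff * R.leadingCoeff).natAbs
  have hpM := not_dvd_of_lt hM hpB
  have hpn : ¬ (p : ℤ) ∣ n := fun hd => hpM (by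
    apply Dvd.dvd.mul_right; apply Dvd.dvd.mul_right; apply Dvd.dvd.mul_right
    apply Dvd.dvd.mul_right; apply Dvd.dvd.mul_right; exact hd)
  have hpN2 : ¬ (p : ℤ) ∣ N2 := fun hd => hpM (by
    apply Dvd.dvd.mul_right; apply Dvd.dvd.mul_right; exact Dvd.dvd.mul_left hd _)
  have hpX : ¬ (p : ℤ) ∣ X0.leadingCoeff := fun hd => hpM (by
    apply Dvd.dvd.mul_right; exact Dvd.dvd.mul_left hd _)
  have hpR : ¬ (p : ℤ) ∣ R.leadingCoeff := fun hd => hpM (Dvd.dvd.mul_left hd _)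
  have hp0 : (p : ℚ) ≠ 0 := by exact_mod_cast hp.ne_zero
  have hpp : (p : ℚ[X]) * C (p : ℚ)⁻¹ = 1 := by
    have : (p : ℚ[X]) = C (p : ℚ) := by simp
    rw [this, ← C_mul, mul_inv_cancel₀ hp0, C_1]
  -- `x / p` lies in `G`
  have hx' : C (p : ℚ)⁻¹ * x ∈ G := by
    intro q hq
    by_cases hqp : q = p
    · subst hqp
      apply Loc.of_mul hq n hpn
      refine ⟨1, fun hd => hq.one_lt.ne' (by exact_mod_cast Int.eq_one_of_dvd_one (by positivity) hd),
        0, 1, ?_⟩
      rw [hξ]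
      simp only [Int.cast_one, one_mul, mul_zero, mul_one, zero_add]
      rw [← eX]
      linear_combination ((n : ℚ[X]) * x) * hpp
    · apply Loc.of_mul hq (p : ℤ)
      · intro hd
        have : q ∣ p := by exact_mod_cast hd
        exact hqp ((Nat.prime_dvd_prime_iff_eq hq hp).1 this)
      · have : ((p : ℤ) : ℚ[X]) * (C (p : ℚ)⁻¹ * x) = x := by
          push_cast
          linear_combination x * hpp
        rw [this]
        exact hx q hq
  obtain ⟨y', hy', ey'⟩ := h p hp ⟨_, hx', by linear_combination x * hpp⟩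
  obtain ⟨s, hs, a, b, e⟩ := hy' p hp
  rw [hξ] at e
  have e1 : (s : ℤ[X]) * Y = n' * (p * a + X0 * b) := by
    apply ι_injective
    simp only [map_mul, map_add, map_intCast, map_natCast] at e ⊢
    rw [← eY, ← ey']
    linear_combination (n' : ℚ[X]) * e
  have e2 : (N : ℤ[X]) * N2 * Y = N * Q * X0 + N2 * R := by
    apply ι_injective
    simp only [map_mul, map_add, map_intCast]
    rw [← eR, ← eQ]
    linear_combination (-(N : ℚ[X]) * N2) * hqr
  have : Fact p.Prime := ⟨hp⟩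
  -- reduce modulo `p`
  let π : ℤ[X] →+* (ZMod p)[X] := Polynomial.mapRingHom (Int.castRingHom (ZMod p))
  have hπp : π (p : ℤ[X]) = 0 := by
    rw [map_natCast]
    have : ((p : ℕ) : (ZMod p)[X]) = C ((p : ℕ) : ZMod p) := by simp
    rw [this, ZMod.natCast_self, C_0]
  have hπ : ∀ m : ℤ, ¬ (p : ℤ) ∣ m → IsUnit (π (m : ℤ[X])) := by
    intro m hm
    have : π (m : ℤ[X]) = C (m : ZMod p) := by
      rw [map_intCast]; simp
    rw [this, isUnit_C]
    exact isUnit_iff_ne_zero.mpr (fun h0 => hm ((ZMod.intCast_zmod_eq_zero_iff_dvd m p).1 h0))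
  have e3 : π s * π N2 * π R = π X0 * (π N * π N2 * π n' * π b - π s * π N * π Q) := by
    have h1 := congrArg π e1
    have h2 := congrArg π e2
    simp only [map_mul, map_add, hπp, zero_mul, zero_add] at h1 h2
    linear_combination (π N * π N2) * h1 - π s * h2
  have e4 : π X0 ∣ π R :=
    ((hπ s hs).mul (hπ N2 hpN2)).dvd_mul_left.1 (Dvd.intro _ e3.symm)
  have hlc : ∀ f : ℤ[X], ¬ (p : ℤ) ∣ f.leadingCoeff → (π f).natDegree = f.natDegree ∧ π f ≠ 0 := by
    intro f hf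
    have h0 : Int.castRingHom (ZMod p) f.leadingCoeff ≠ 0 := by
      intro h0
      exact hf ((ZMod.intCast_zmod_eq_zero_iff_dvd _ p).1 h0)
    exact ⟨natDegree_map_of_leadingCoeff_ne_zero _ h0, fun h1 => h0 (by
      have : (π f).coeff f.natDegree = 0 := by rw [h1, coeff_zero]
      simpa [π] using this)⟩
  obtain ⟨d1, -⟩ := hlc X0 hpX
  obtain ⟨d2, d3⟩ := hlc R hpR
  have := natDegree_le_of_dvd e4 d3
  omega

/-- Nonzero elements of `G` have finite heights. -/
theorem exists_not_divisible {g : ℚ[X]} (hg0 : g ≠ 0) {p : ℕ} (hp : p.Prime) :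
    ∃ k : ℕ, ¬ ∃ h ∈ G, ((p ^ k : ℕ) : ℚ[X]) * h = g := by
  obtain ⟨n, hn, X0, eX⟩ := exists_int_mul g
  have hnQ : (n : ℚ[X]) ≠ 0 := by exact_mod_cast hn
  have hX0 : X0 ≠ 0 := by
    rintro rfl
    rw [map_zero] at eX
    exact mul_ne_zero hnQ hg0 eX
  have hlc : X0.leadingCoeff ≠ 0 := leadingCoeff_ne_zero.mpr hX0
  refine ⟨X0.leadingCoeff.natAbs + 1, ?_⟩
  rintro ⟨h, hh, e⟩
  obtain ⟨s, hs, a, b, e'⟩ := hh p hp
  have hpQ : (p : ℚ[X]) ≠ 0 := by exact_mod_cast hp.ne_zero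
  have e1 : (s : ℤ[X]) * X0 = (p : ℤ[X]) ^ X0.leadingCoeff.natAbs * (n * (p * a + ξ p * b)) := by
    apply ι_injective
    simp only [map_mul, map_add, map_intCast, map_natCast, map_pow] at e' ⊢
    rw [← eX, ← e]
    push_cast
    linear_combination ((n : ℚ[X]) * (p : ℚ[X]) ^ X0.leadingCoeff.natAbs) * e'
  have e2 := congrArg (fun f => f.coeff X0.natDegree) e1
  have hc1 : ((s : ℤ[X]) * X0).coeff X0.natDegree = s * X0.leadingCoeff := by
    have : (s : ℤ[X]) = C s := by simp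
    rw [this, coeff_C_mul, coeff_natDegree]
  have hc2 : ((p : ℤ[X]) ^ X0.leadingCoeff.natAbs * (n * (p * a + ξ p * b))).coeff X0.natDegree
      = (p : ℤ) ^ X0.leadingCoeff.natAbs * (n * (p * a + ξ p * b) : ℤ[X]).coeff X0.natDegree := by
    have : (p : ℤ[X]) ^ X0.leadingCoeff.natAbs = C ((p : ℤ) ^ X0.leadingCoeff.natAbs) := by simp
    rw [this, coeff_C_mul]
  simp only [hc1, hc2] at e2
  have hcop : IsCoprime ((p : ℤ) ^ X0.leadingCoeff.natAbs) s := by
    apply IsCoprime.pow_left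
    exact (Prime.coprime_iff_not_dvd (Nat.prime_iff_prime_int.mp hp)).2 hs
  have hd : (p : ℤ) ^ X0.leadingCoeff.natAbs ∣ X0.leadingCoeff :=
    hcop.dvd_of_dvd_mul_left (Dvd.intro _ e2.symm)
  have h1 : p ^ X0.leadingCoeff.natAbs ∣ X0.leadingCoeff.natAbs := by
    have := Int.natAbs_dvd_natAbs.mpr hd
    rwa [Int.natAbs_pow, Int.natAbs_natCast] at this
  have h2 := Nat.le_of_dvd (Int.natAbs_pos.mpr hlc) h1
  have h3 : X0.leadingCoeff.natAbs < p ^ X0.leadingCoeff.natAbs := Nat.lt_pow_self hp.one_lt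
  omega

theorem G_zsmul_cancel {n : ℤ} (hn : n ≠ 0) {x y : G} (h : n • x = n • y) : x = y := by
  have h1 : n • (x - y) = 0 := by rw [smul_sub, h, sub_self]
  have h2 : (n : ℚ[X]) * ((x - y : G) : ℚ[X]) = 0 := by
    have := congrArg (Subtype.val) h1
    rwa [AddSubgroup.coe_zsmul, zsmul_eq_mul] at this
  have h3 : ((x - y : G) : ℚ[X]) = 0 := by
    rcases mul_eq_zero.mp h2 with h3 | h3
    · exact absurd (by exact_mod_cast h3) hn
    · exact h3
  have h4 : x - y = 0 := Subtype.ext h3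
  exact sub_eq_zero.mp h4

theorem key {x y : G} (hx : x ≠ 0) (hxy : characteristic x = characteristic y) {u v : ℤ}
    (huv : IsCoprime u v) (h : v • y = u • x) {p : ℕ} (hp : p.Prime) : ¬ (p : ℤ) ∣ v := by
  rintro ⟨v', rfl⟩
  rw [characteristic_eq_iff] at hxy
  have hex : ∃ k : ℕ, ¬ ∃ z : G, (p ^ k) • z = x := by
    obtain ⟨k, hk⟩ := exists_not_divisible (g := (x : ℚ[X])) (fun h0 => hx (Subtype.ext h0)) hp
    refine ⟨k, ?_⟩
    rintro ⟨z, hz⟩
    apply hk
    refine ⟨z, z.2, ?_⟩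
    rw [← hz, AddSubgroup.coe_nsmul, nsmul_eq_mul]
  classical
  have hmin := Nat.find_spec hex
  have hlt := fun m => Nat.find_min hex (m := m)
  obtain ⟨m, hm⟩ : ∃ m, Nat.find hex = m + 1 := by
    cases hc : Nat.find hex with
    | zero =>
      exfalso
      rw [hc] at hmin
      exact hmin ⟨x, by simp⟩
    | succ m => exact ⟨m, rfl⟩
  rw [hm] at hmin
  have hPm : ∃ z : G, (p ^ m) • z = x := by
    have := hlt m (by omega)
    exact not_not.mp this
  obtain ⟨x', hx'⟩ := hPm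
  obtain ⟨y', hy'⟩ := (hxy p hp m).1 ⟨x', hx'⟩
  have e : (p * v' : ℤ) • y' = u • x' := by
    have hpm : ((p : ℤ) ^ m) ≠ 0 := by
      have := hp.ne_zero
      positivity
    apply G_zsmul_cancel hpm
    rw [smul_comm, smul_comm ((p : ℤ) ^ m) u x']
    have h1 : ((p : ℤ) ^ m) • y' = y := by rw [← hy', ← Nat.cast_pow, natCast_zsmul]
    have h2 : ((p : ℤ) ^ m) • x' = x := by rw [← hx', ← Nat.cast_pow, natCast_zsmul]
    rw [h1, h2, h]
  obtain ⟨α, β, hαβ⟩ : IsCoprime u (p : ℤ) := huv.of_mul_right_left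
  apply hmin
  refine ⟨α • v' • y' + β • x', ?_⟩
  have e3 : (p : ℤ) • (α • v' • y' + β • x') = x' := by
    have : (p : ℤ) • (α • v' • y' + β • x') = α • ((p * v' : ℤ) • y') + (β * p) • x' := by
      module
    rw [this, e, smul_smul, ← add_smul, hαβ, one_smul]
  rw [pow_succ, mul_smul, ← natCast_zsmul _ p, e3, hx']

theorem eq_or_neg {x y : G} (hxy : characteristic x = characteristic y) : y = x ∨ y = -x := by
  have hzero : ∀ {a b : G}, a = 0 → characteristic a = characteristic b → b = 0 := by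
    intro a b ha hab
    by_contra hb
    rw [characteristic_eq_iff] at hab
    obtain ⟨k, hk⟩ := exists_not_divisible (g := (b : ℚ[X])) (fun h0 => hb (Subtype.ext h0))
      Nat.prime_two
    obtain ⟨z, hz⟩ := (hab 2 Nat.prime_two k).1 ⟨0, by rw [smul_zero, ha]⟩
    apply hk
    refine ⟨z, z.2, ?_⟩
    rw [← hz, AddSubgroup.coe_nsmul, nsmul_eq_mul]
  by_cases hx : x = 0
  · left
    rw [hzero hx hxy, hx]
  by_cases hy : y = 0
  · exact absurd (hzero hy hxy.symm) hx
  have hxQ : (x : ℚ[X]) ≠ 0 := fun h0 => hx (Subtype.ext h0)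
  have hyQ : (y : ℚ[X]) ≠ 0 := fun h0 => hy (Subtype.ext h0)
  have hdvd : ∀ {a b : G}, (a : ℚ[X]) ≠ 0 → characteristic a = characteristic b →
      (a : ℚ[X]) ∣ b := by
    intro a b ha hab
    rw [characteristic_eq_iff] at hab
    apply dvd_of_heights a.2 ha
    rintro p hp ⟨a', ha', e⟩
    obtain ⟨z, hz⟩ := (hab p hp 1).1 ⟨⟨a', ha'⟩, by
      apply Subtype.ext
      rw [AddSubgroup.coe_nsmul, nsmul_eq_mul, pow_one]
      exact e⟩
    refine ⟨z, z.2, ?_⟩
    rw [← hz, AddSubgroup.coe_nsmul, nsmul_eq_mul, pow_one]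
  have hass : Associated (x : ℚ[X]) (y : ℚ[X]) :=
    associated_of_dvd_dvd (hdvd hxQ hxy) (hdvd hyQ hxy.symm)
  obtain ⟨w, hw⟩ := hass
  obtain ⟨c, hc, hcw⟩ := Polynomial.isUnit_iff.mp w.isUnit
  have hc0 : c ≠ 0 := hc.ne_zero
  rw [← hcw] at hw
  -- `c = u / v`
  have h1 : (c.den : ℚ) * c = c.num := by
    rw [mul_comm]; exact Rat.mul_den_eq_num c
  have e : (c.den : ℤ) • y = c.num • x := by
    apply Subtype.ext
    rw [AddSubgroup.coe_zsmul, AddSubgroup.coe_zsmul, zsmul_eq_mul, zsmul_eq_mul, ← hw]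
    have h2 : ((c.den : ℤ) : ℚ[X]) = C (c.den : ℚ) := by simp
    have h3 : ((c.num : ℤ) : ℚ[X]) = C (c.num : ℚ) := by simp
    rw [h2, h3, ← h1, C_mul]
    ring
  have hcop : IsCoprime c.num (c.den : ℤ) := by
    rw [Int.isCoprime_iff_gcd_eq_one]
    exact c.reduced
  have hv : (c.den : ℤ).natAbs = 1 := by
    by_contra hne
    obtain ⟨p, hp, hpd⟩ := Nat.exists_prime_and_dvd hne
    exact key hx hxy hcop e hp (Int.natCast_dvd.mpr hpd)
  have hu : (c.num : ℤ).natAbs = 1 := by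
    by_contra hne
    obtain ⟨p, hp, hpd⟩ := Nat.exists_prime_and_dvd hne
    exact key hy hxy.symm hcop.symm e.symm hp (Int.natCast_dvd.mpr hpd)
  have hv' : (c.den : ℤ) = 1 := by
    rw [Int.natAbs_natCast] at hv
    exact_mod_cast hv
  rw [hv', one_smul] at e
  rcases Int.natAbs_eq_iff.mp hu with h | h
  · left
    rw [e, h]; simp
  · right
    rw [e, h]; simp

theorem transitive_G : Transitive G := by
  intro x y hxy
  rcases eq_or_neg hxy with rfl | rfl
  · exact ⟨AddEquiv.refl _, rfl⟩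
  · exact ⟨AddEquiv.neg _, rfl⟩

/-! ### Endomorphisms of `G` -/

theorem one_mem : (1 : ℚ[X]) ∈ G := by
  have := ι_mem 1
  rwa [map_one] at this

theorem intCast_mem (k : ℤ) : (k : ℚ[X]) ∈ G := by
  have := ι_mem (k : ℤ[X])
  rwa [map_intCast] at this

theorem endo_eq_mul (φ : G →+ G) (g : G) :
    (φ g : ℚ[X]) = (φ ⟨1, one_mem⟩ : ℚ[X]) * g := by
  set r0 : ℚ[X] := (φ ⟨1, one_mem⟩ : ℚ[X]) with hr0
  have hint : ∀ k : ℤ, (φ ⟨(k : ℚ[X]), intCast_mem k⟩ : ℚ[X]) = k * r0 := by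
    intro k
    have : (⟨(k : ℚ[X]), intCast_mem k⟩ : G) = k • (⟨1, one_mem⟩ : G) := by
      apply Subtype.ext
      rw [AddSubgroup.coe_zsmul, zsmul_eq_mul, mul_one]
    rw [this, map_zsmul, AddSubgroup.coe_zsmul, zsmul_eq_mul]
  by_cases hdeg : (g : ℚ[X]).natDegree = 0
  · -- constants
    obtain ⟨c, hc⟩ : ∃ c : ℚ, (g : ℚ[X]) = C c := ⟨_, eq_C_of_natDegree_eq_zero hdeg⟩
    have h1 : (c.den : ℚ) * c = c.num := by
      rw [mul_comm]; exact Rat.mul_den_eq_num c
    have e : (c.den : ℤ) • g = ⟨(c.num : ℚ[X]), intCast_mem c.num⟩ := by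
      apply Subtype.ext
      rw [AddSubgroup.coe_zsmul, zsmul_eq_mul, hc]
      have h2 : ((c.den : ℤ) : ℚ[X]) = C (c.den : ℚ) := by simp
      have h3 : ((c.num : ℤ) : ℚ[X]) = C (c.num : ℚ) := by simp
      show _ = ((c.num : ℤ) : ℚ[X])
      rw [h2, h3, ← h1, C_mul]
    have e2 := congrArg (fun z : G => (φ z : ℚ[X])) e
    simp only [map_zsmul, AddSubgroup.coe_zsmul, zsmul_eq_mul, hint] at e2
    have e3 := congrArg (fun z : G => (z : ℚ[X])) e
    simp only [AddSubgroup.coe_zsmul, zsmul_eq_mul] at e3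
    have hd : ((c.den : ℤ) : ℚ[X]) ≠ 0 := by exact_mod_cast c.den_ne_zero
    apply mul_left_cancel₀ hd
    rw [e2, ← e3]
    ring
  · by_contra hne
    set D : ℚ[X] := (φ g : ℚ[X]) - r0 * g with hD
    have hD0 : D ≠ 0 := sub_ne_zero.mpr hne
    have hdv : ∀ k : ℤ, ((g : ℚ[X]) + (k : ℚ[X])) ∣ D := by
      intro k
      set gk : G := g + ⟨(k : ℚ[X]), intCast_mem k⟩ with hgk
      have hgk' : (gk : ℚ[X]) = (g : ℚ[X]) + (k : ℚ[X]) := rfl
      have hne0 : (gk : ℚ[X]) ≠ 0 := by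
        intro h0
        rw [hgk'] at h0
        apply hdeg
        have h1 : (g : ℚ[X]) = -(k : ℚ[X]) := eq_neg_of_add_eq_zero_left h0
        rw [h1, natDegree_neg, natDegree_intCast]
      have h1 : (gk : ℚ[X]) ∣ (φ gk : ℚ[X]) := by
        apply dvd_of_heights gk.2 hne0
        rintro p hp ⟨x', hx', e⟩
        refine ⟨φ ⟨x', hx'⟩, (φ ⟨x', hx'⟩).2, ?_⟩
        have e1 : gk = p • (⟨x', hx'⟩ : G) := by
          apply Subtype.ext
          rw [AddSubgroup.coe_nsmul, nsmul_eq_mul]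
          exact e.symm
        rw [e1, map_nsmul, AddSubgroup.coe_nsmul, nsmul_eq_mul]
      have h2 : (φ gk : ℚ[X]) = (φ g : ℚ[X]) + k * r0 := by
        rw [hgk, map_add, AddSubgroup.coe_add, hint]
      have h3 : D = (φ gk : ℚ[X]) - r0 * gk := by
        rw [h2, hgk', hD]; ring
      rw [h3, ← hgk']
      exact dvd_sub h1 (Dvd.intro_left _ rfl)
    have hcop : Set.Pairwise (↑(Finset.range (D.natDegree + 1)) : Set ℕ)
        (Function.onFun IsCoprime (fun k : ℕ => (g : ℚ[X]) + ((k : ℤ) : ℚ[X]))) := by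
      intro i _ j _ hij
      have hij' : ((i : ℚ) - j) ≠ 0 := by
        intro h0
        exact hij (by exact_mod_cast sub_eq_zero.mp h0)
      refine ⟨C ((i : ℚ) - j)⁻¹, -C ((i : ℚ) - j)⁻¹, ?_⟩
      have h1 : C ((i : ℚ) - j)⁻¹ * C ((i : ℚ) - j) = 1 := by
        rw [← C_mul, inv_mul_cancel₀ hij', C_1]
      have h2 : C ((i : ℚ) - j) = (((i : ℤ) : ℚ[X])) - ((j : ℤ) : ℚ[X]) := by
        simp
      rw [h2] at h1
      linear_combination h1
    have hprod : ∏ k ∈ Finset.range (D.natDegree + 1), ((g : ℚ[X]) + ((k : ℤ) : ℚ[X])) ∣ D :=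
      Finset.prod_dvd_of_coprime hcop (fun k _ => hdv k)
    have hdegk : ∀ k : ℕ, ((g : ℚ[X]) + ((k : ℤ) : ℚ[X])).natDegree = (g : ℚ[X]).natDegree := by
      intro k
      have : ((k : ℤ) : ℚ[X]) = C (k : ℚ) := by simp
      rw [this, natDegree_add_C]
    have hne0 : ∀ k ∈ Finset.range (D.natDegree + 1), ((g : ℚ[X]) + ((k : ℤ) : ℚ[X])) ≠ 0 := by
      intro k _ h0
      have := hdegk k
      rw [h0, natDegree_zero] at this
      exact hdeg this.symm
    have h1 := natDegree_le_of_dvd hprod hD0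
    rw [natDegree_prod _ _ hne0, Finset.sum_congr rfl (fun k _ => hdegk k), Finset.sum_const,
      Finset.card_range, smul_eq_mul] at h1
    have h2 : 1 ≤ (g : ℚ[X]).natDegree := Nat.one_le_iff_ne_zero.mpr hdeg
    nlinarith

theorem xi_div_mem {p : ℕ} (hp : p.Prime) : C (p : ℚ)⁻¹ * ι (ξ p) ∈ G := by
  have hp0 : (p : ℚ) ≠ 0 := by exact_mod_cast hp.ne_zero
  have hpp : (p : ℚ[X]) * C (p : ℚ)⁻¹ = 1 := by
    have : (p : ℚ[X]) = C (p : ℚ) := by simp
    rw [this, ← C_mul, mul_inv_cancel₀ hp0, C_1]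
  intro q hq
  by_cases hqp : q = p
  · subst hqp
    refine ⟨1, fun hd => hq.one_lt.ne' (by exact_mod_cast Int.eq_one_of_dvd_one (by positivity) hd),
      0, 1, ?_⟩
    simp only [Int.cast_one, one_mul, mul_zero, mul_one, zero_add]
    linear_combination ι (ξ q) * hpp
  · apply Loc.of_mul hq (p : ℤ)
    · intro hd
      have : q ∣ p := by exact_mod_cast hd
      exact hqp ((Nat.prime_dvd_prime_iff_eq hq hp).1 this)
    · have : ((p : ℤ) : ℚ[X]) * (C (p : ℚ)⁻¹ * ι (ξ p)) = ι (ξ p) := by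
        push_cast
        linear_combination ι (ξ p) * hpp
      rw [this]
      exact loc_ι hq _

/-- Multipliers of `G` are integral polynomials. -/
theorem multiplier_integral {r : ℚ[X]} (hr : ∀ g ∈ G, r * g ∈ G) : ∃ f : ℤ[X], r = ι f := by
  have hloc : ∀ p : ℕ, p.Prime → ∃ s : ℤ, ¬ (p : ℤ) ∣ s ∧ ∃ F : ℤ[X], (s : ℚ[X]) * r = ι F := by
    intro p hp
    have hp0 : (p : ℚ) ≠ 0 := by exact_mod_cast hp.ne_zero
    have hpp : (p : ℚ[X]) * C (p : ℚ)⁻¹ = 1 := by
      have : (p : ℚ[X]) = C (p : ℚ) := by simp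
      rw [this, ← C_mul, mul_inv_cancel₀ hp0, C_1]
    have hpQ : (p : ℚ[X]) ≠ 0 := by exact_mod_cast hp.ne_zero
    have hpI := Nat.prime_iff_prime_int.mp hp
    have hpP : Prime (C (p : ℤ)) := Polynomial.prime_C_iff.mpr hpI
    have hCp : (p : ℤ[X]) = C (p : ℤ) := by simp
    have hint : ∀ m : ℤ, ¬ (p : ℤ) ∣ m → ¬ C (p : ℤ) ∣ (m : ℤ[X]) := by
      intro m hm hd
      have : (m : ℤ[X]) = C m := by simp
      rw [this, Polynomial.C_dvd_iff_dvd_coeff] at hd
      have := hd 0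
      rw [coeff_C_zero] at this
      exact hm this
    obtain ⟨s, hs, a, b, e⟩ := (hr 1 one_mem) p hp
    rw [mul_one] at e
    obtain ⟨s', hs', a', b', e'⟩ := (hr _ (xi_div_mem hp)) p hp
    have hss : ¬ (p : ℤ) ∣ s := hs
    -- it suffices that `p ∣ ξ_p b`
    suffices hsuff : C (p : ℤ) ∣ ξ p * b by
      obtain ⟨w, hw⟩ := hsuff
      refine ⟨s, hs, a + w, ?_⟩
      rw [hw, ← hCp] at e
      apply mul_left_cancel₀ hpQ
      simp only [map_add, map_mul, map_natCast] at e ⊢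
      linear_combination e
    by_cases hξ : C (p : ℤ) ∣ ξ p
    · exact hξ.mul_right b
    · have e1 : (s' : ℤ[X]) * ξ p * (p * a + ξ p * b) = s * p * (p * a' + ξ p * b') := by
        apply ι_injective
        simp only [map_add, map_mul, map_natCast, map_intCast] at e e' ⊢
        rw [← e, ← e']
        linear_combination (-(s : ℚ[X]) * s' * p * r * ι (ξ p)) * hpp
      have e2 : C (p : ℤ) ∣ (s' : ℤ[X]) * (ξ p * (ξ p * b)) := by
        refine ⟨s * (p * a' + ξ p * b') - s' * ξ p * a, ?_⟩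
        rw [← hCp]
        linear_combination e1
      rcases hpP.dvd_or_dvd e2 with h1 | h1
      · exact absurd h1 (hint s' hs')
      · rcases hpP.dvd_or_dvd h1 with h2 | h2
        · exact absurd h2 hξ
        · exact h2
  let I : Ideal ℤ :=
    { carrier := {s | ∃ F : ℤ[X], (s : ℚ[X]) * r = ι F}
      add_mem' := by
        rintro a b ⟨F, hF⟩ ⟨F', hF'⟩
        refine ⟨F + F', ?_⟩
        rw [map_add, ← hF, ← hF']; push_cast; ring
      zero_mem' := ⟨0, by simp⟩
      smul_mem' := by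
        rintro c a ⟨F, hF⟩
        refine ⟨c * F, ?_⟩
        rw [map_mul, map_intCast, ← hF, smul_eq_mul]; push_cast; ring }
  have hI : I = ⊤ := by
    by_contra hne
    obtain ⟨m, hm⟩ := (IsPrincipalIdealRing.principal I)
    have hm1 : m.natAbs ≠ 1 := by
      intro h1
      apply hne
      rw [hm]
      exact Ideal.span_singleton_eq_top.mpr (Int.isUnit_iff_natAbs_eq.mpr h1)
    obtain ⟨p, hp, hpm⟩ := Nat.exists_prime_and_dvd hm1
    obtain ⟨s, hs, F, hF⟩ := hloc p hp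
    have hsI : s ∈ I := ⟨F, hF⟩
    rw [hm] at hsI
    have : m ∣ s := Ideal.mem_span_singleton.mp hsI
    exact hs ((Int.natCast_dvd.mpr hpm).trans this)
  have h1 : (1 : ℤ) ∈ I := by rw [hI]; trivial
  obtain ⟨F, hF⟩ := h1
  exact ⟨F, by rw [← hF]; simp⟩

/-- Every endomorphism of `G` is multiplication by an integral polynomial. -/
theorem endo_integral (φ : G →+ G) : ∃ f : ℤ[X], ∀ g : G, (φ g : ℚ[X]) = ι f * g := by
  obtain ⟨f, hf⟩ := multiplier_integral (r := (φ ⟨1, one_mem⟩ : ℚ[X])) (by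
    intro g hg
    have := endo_eq_mul φ ⟨g, hg⟩
    rw [← this]
    exact (φ ⟨g, hg⟩).2)
  exact ⟨f, fun g => by rw [endo_eq_mul φ g, hf]⟩

/-! ### The square of `G` -/

/-- Multiplication by an integral polynomial. -/
noncomputable def mulEnd (f : ℤ[X]) : G →+ G where
  toFun g := ⟨ι f * g, ι_mul_mem f g.2⟩
  map_zero' := Subtype.ext (by simp)
  map_add' a b := Subtype.ext (by simp [mul_add])

/-- Endomorphisms of `G ⊕ G` are given by matrices. -/
theorem endo_sq (φ : G × G →+ G × G) : ∃ a b c d : ℤ[X], ∀ x y : G,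
    ((φ (x, y)).1 : ℚ[X]) = ι a * x + ι b * y ∧ ((φ (x, y)).2 : ℚ[X]) = ι c * x + ι d * y := by
  obtain ⟨a, ha⟩ := endo_integral
    (((AddMonoidHom.fst G G).comp φ).comp (AddMonoidHom.inl G G))
  obtain ⟨b, hb⟩ := endo_integral
    (((AddMonoidHom.fst G G).comp φ).comp (AddMonoidHom.inr G G))
  obtain ⟨c, hc⟩ := endo_integral
    (((AddMonoidHom.snd G G).comp φ).comp (AddMonoidHom.inl G G))
  obtain ⟨d, hd⟩ := endo_integral
    (((AddMonoidHom.snd G G).comp φ).comp (AddMonoidHom.inr G G))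
  refine ⟨a, b, c, d, fun x y => ?_⟩
  have h : φ (x, y) = φ (x, 0) + φ (0, y) := by
    rw [← map_add, Prod.mk_add_mk, add_zero, zero_add]
  rw [h]
  constructor
  · rw [← ha x, ← hb y]; rfl
  · rw [← hc x, ← hd y]; rfl

theorem not_weaklyTransitive_sq : ¬ WeaklyTransitive (G × G) := by
  intro h
  set x5 : G := ⟨ι 5, ι_mem 5⟩ with hx5
  set xX : G := ⟨ι X, ι_mem X⟩ with hxX
  set x2X : G := ⟨ι (2 * X), ι_mem (2 * X)⟩ with hx2X
  obtain ⟨η, hη⟩ := h (x5, xX) (x5, x2X)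
    ⟨(AddMonoidHom.id G).prodMap (mulEnd 2), by
      apply Prod.ext
      · rfl
      · apply Subtype.ext
        show ι 2 * ι X = ι (2 * X)
        rw [map_mul]⟩
    ⟨(AddMonoidHom.fst G G).prod
      ((mulEnd 3).comp (AddMonoidHom.snd G G) - (mulEnd X).comp (AddMonoidHom.fst G G)), by
      apply Prod.ext
      · rfl
      · apply Subtype.ext
        show ι 3 * ι (2 * X) - ι X * ι 5 = ι X
        rw [← map_mul, ← map_mul, ← map_sub]
        congr 1
        ring⟩
  obtain ⟨a, b, c, d, hφ⟩ := endo_sq η.toAddMonoidHom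
  obtain ⟨a', b', c', d', hψ⟩ := endo_sq η.symm.toAddMonoidHom
  simp only [AddEquiv.toAddMonoidHom_eq_coe, AddMonoidHom.coe_coe] at hφ hψ
  -- the matrix of `η` is invertible
  have hinv : ∀ x y : G, (x : ℚ[X]) = ι a' * (ι a * x + ι b * y) + ι b' * (ι c * x + ι d * y) ∧
      (y : ℚ[X]) = ι c' * (ι a * x + ι b * y) + ι d' * (ι c * x + ι d * y) := by
    intro x y
    have e := hψ (η (x, y)).1 (η (x, y)).2
    rw [Prod.mk.eta, AddEquiv.symm_apply_apply, (hφ x y).1, (hφ x y).2] at e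
    exact e
  have one : (⟨1, one_mem⟩ : G) = ⟨1, one_mem⟩ := rfl
  obtain ⟨i1, i2⟩ := hinv ⟨1, one_mem⟩ 0
  obtain ⟨i3, i4⟩ := hinv 0 ⟨1, one_mem⟩
  simp only [ZeroMemClass.coe_zero, mul_zero, add_zero, mul_one, zero_add] at i1 i2 i3 i4
  have hdet : (a * d - b * c) * (a' * d' - b' * c') = 1 := by
    apply ι_injective
    simp only [map_mul, map_sub, map_one]
    linear_combination (-(ι c' * ι b + ι d' * ι d)) * i1 + (ι a' * ι b + ι b' * ι d) * i2 - i4
  obtain ⟨k1, k2⟩ := hφ x5 xX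
  rw [hη] at k1 k2
  have k1' : (5 : ℤ[X]) = a * 5 + b * X := by
    apply ι_injective
    rw [map_add, map_mul ι a, map_mul ι b]
    exact k1
  have k2' : (2 * X : ℤ[X]) = c * 5 + d * X := by
    apply ι_injective
    rw [map_add, map_mul ι c, map_mul ι d]
    exact k2
  -- evaluate coefficients
  have m1 := congrArg (fun f : ℤ[X] => f.eval 0) k1'
  have m2 := congrArg (fun f : ℤ[X] => f.eval 0) k2'
  have m3 := congrArg (fun f : ℤ[X] => (derivative f).eval 0) k2'
  have m4 := congrArg (fun f : ℤ[X] => f.eval 0) hdet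
  simp only [eval_add, eval_mul, eval_X, eval_ofNat, mul_zero, add_zero, zero_mul, eval_sub,
    eval_one, derivative_add, derivative_mul, derivative_X, derivative_ofNat, mul_one,
    zero_add] at m1 m2 m3 m4
  have n1 : eval 0 a = 1 := by omega
  have n2 : eval 0 c = 0 := by omega
  rw [n1, n2, one_mul, mul_zero, sub_zero] at m4
  have m5 : IsUnit (eval 0 d) := IsUnit.of_mul_eq_one _ m4
  rcases Int.isUnit_iff.mp m5 with h1 | h1 <;> omega

/-- There is a torsion-free abelian group `G` that is transitive - in particular Krylov transitive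
and weakly transitive - such that `G ⊕ G` is not weakly transitive. -/
theorem result : ∃ (G : Type) (_ : AddCommGroup G), TorsionFree G ∧ Transitive G ∧
    KrylovTransitive G ∧ WeaklyTransitive G ∧ ¬ WeaklyTransitive (G × G) :=
  ⟨G, inferInstance, fun n x hn h => G_zsmul_cancel hn (by rw [h, smul_zero]), transitive_G,
    transitive_G.krylov, transitive_G.weakly, not_weaklyTransitive_sq⟩

end Pool.Agent.Results.MP_1abb56_al.SquareNotWeaklyTrans
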